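import Pool.Agent.Helper15.WA.LocDefs
import Pool.Agent.Helper10.GWA.LB
import Pool.Agent.Helper9.GWA.GNear

/-!
# Density and limits of the involution
-/

namespace GWA

open Topology Filter

/-- generic points in infinite sets -/
theorem exists_generic {K : Type*} [Field K] [NeZero (2 : K)] {d : K} (hd : d ≠ 0) {S : Set (E d)}
    (hS : S.Infinite) (B : Finset K) : ∃ P ∈ S, P ≠ 0 ∧ ff (nx P) ≠ 0 ∧ nx P ∉ B := by
  classical
  by_contra hcon
  push Not at hcon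
  apply hS
  set B' : Finset K := insert 0 (insert 1 (insert (-1) B)) with hB'
  have hfin : ∀ b : K, ({P : E d | P ≠ 0 ∧ nx P = b}).Finite := by
    intro b
    by_cases hex : ∃ P₀ : E d, P₀ ≠ 0 ∧ nx P₀ = b
    · obtain ⟨P₀, h0, h1⟩ := hex
      apply Set.Finite.subset (Set.toFinite {P₀, -P₀})
      rintro P ⟨h2, h3⟩
      rcases (nx_eq_iff hd h2 h0).1 (h3.trans h1.symm) with h | h
      · left; exact h
      · right; exact h
    · apply Set.Finite.subset Set.finite_empty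
      rintro P ⟨h2, h3⟩
      exact hex ⟨P, h2, h3⟩
  apply Set.Finite.subset ((Set.finite_singleton (0 : E d)).union
    (Set.Finite.biUnion B'.finite_toSet (fun b _ => hfin b)))
  intro P hP
  by_cases hP0 : P = 0
  · left; exact hP0
  right
  rw [Set.mem_iUnion₂]
  refine ⟨nx P, ?_, hP0, rfl⟩
  by_cases hf : ff (nx P) = 0
  · have h1 : nx P * ((nx P - 1) * (nx P + 1)) = 0 := by
      rw [← hf]; unfold ff; ring
    rw [Finset.mem_coe, hB', Finset.mem_insert, Finset.mem_insert, Finset.mem_insert]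
    rcases mul_eq_zero.1 h1 with h2 | h2
    · left; exact h2
    · rcases mul_eq_zero.1 h2 with h3 | h3
      · right; left; exact sub_eq_zero.1 h3
      · right; right; left; exact eq_neg_of_add_eq_zero_left h3
  · have := hcon P hP hP0 hf
    rw [Finset.mem_coe, hB', Finset.mem_insert, Finset.mem_insert, Finset.mem_insert]
    right; right; right; exact this

theorem infinite_near {K : Type} [NormedField K] [NeZero (2 : K)]
    [DecidableEq K] {c : ℝ} {d : K} {n : ℕ} (hinf : (nbh c d n).Infinite) (P : E d) :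
    ({P' : E d | P' - P ∈ nbh c d n}).Infinite := by
  have h1 : (fun x => x + P) '' (nbh c d n) ⊆ {P' : E d | P' - P ∈ nbh c d n} := by
    rintro _ ⟨x, hx, rfl⟩
    change x + P - P ∈ nbh c d n
    rwa [add_sub_cancel_right]
  exact (hinf.image (add_left_injective P).injOn).mono h1

theorem dens_of_infinite {K : Type} [NormedField K] [Algebra GaussianInt K] [NeZero (2 : K)]
    [DecidableEq K] {c : ℝ} (hinf : ∀ d : K, d ≠ 0 → ∀ n, (nbh c d n).Infinite)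
    (t : (KLD K c).Sys) (n : ℕ) :
    ∃ t', (KLD K c).close n t' t ∧ ∃ t'', (KLD K c).S t'' t' := by
  obtain ⟨d, P, Q⟩ := t
  change Kˣ at d
  change E (d : K) at P Q
  have hd := d.ne_zero
  obtain ⟨Q', hQ', hQ0, hfy, -⟩ := exists_generic hd (infinite_near (hinf d hd n) Q) ∅
  set y := nx Q' with hy
  obtain ⟨P', hP', hP0, hfx, hB⟩ := exists_generic hd (infinite_near (hinf d hd n) P)
    {(y + 1) / (3 * y - 1), -y - 1, (y + 1) / 2, 2 * y - 1}
  set x := nx P' with hx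
  have hyP := (yc_ne_iff hd P').2 hfx
  have hyQ := (yc_ne_iff hd Q').2 hfy
  simp only [Finset.mem_insert, Finset.mem_singleton, not_or] at hB
  obtain ⟨hB1, hB2, hB3, hB4⟩ := hB
  have hy1 : y + 1 ≠ 0 := by
    intro h0
    apply hfy
    have : y = -1 := eq_neg_of_add_eq_zero_left h0
    rw [this]; unfold ff; ring
  set u := mkPt hd P' Q' hyP hyQ with hu
  have hux : u.x = x := rfl
  have huy : u.y = y := rfl
  have hI : IOK u := by
    rw [IOK, hux, huy]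
    refine ⟨?_, ?_, ?_⟩
    · intro h0
      unfold sD at h0
      by_cases h3 : 3 * y - 1 = 0
      · apply hy1
        linear_combination -h0 + x * h3
      · apply hB1
        rw [eq_div_iff h3]
        linear_combination h0
    · intro h0
      unfold sS at h0
      apply hB2
      linear_combination h0
    · intro h0
      unfold sQ at h0
      rcases mul_eq_zero.1 h0 with h1 | h1
      · apply hB3
        rw [eq_div_iff two_ne_zero]
        linear_combination h1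
      · apply hB4
        linear_combination h1
  obtain ⟨d'', P'', Q'', hrep⟩ := exists_rep (iota u hI)
  refine ⟨⟨d, P', Q'⟩, ⟨P', Q', rfl, hP', hQ'⟩, ⟨d'', P'', Q''⟩, ?_⟩
  apply SRel.symm
  exact ⟨u, hI, rep_mkPt hd hyP hyQ, hrep⟩

/-! ### the involution near `y = ∞` -/

/-- `sD` divided by `y` as a function of `x` and `1 / y` -/
def gD {K : Type*} [Field K] (q : K × K) : K := 3 * q.1 - 1 - (q.1 + 1) * q.2

/-- `sS` divided by `y` as a function of `x` and `1 / y` -/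
def gS {K : Type*} [Field K] (q : K × K) : K := 1 + (q.1 + 1) * q.2

/-- `sQ` divided by `y ^ 2` as a function of `x` and `1 / y` -/
def gQ {K : Type*} [Field K] (q : K × K) : K := ((2 * q.1 - 1) * q.2 - 1) * ((q.1 + 1) * q.2 - 2)

theorem sD_gD {K : Type*} [Field K] {x y : K} (hy : y ≠ 0) : sD x y = y * gD (x, y⁻¹) := by
  unfold sD gD; field_simp; ring

theorem sS_gS {K : Type*} [Field K] {x y : K} (hy : y ≠ 0) : sS x y = y * gS (x, y⁻¹) := by
  unfold sS gS; field_simp; ring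

theorem sQ_gQ {K : Type*} [Field K] {x y : K} (hy : y ≠ 0) : sQ x y = y ^ 2 * gQ (x, y⁻¹) := by
  unfold sQ gQ; field_simp; ring

theorem rho_g {K : Type*} [Field K] {x y : K} (hy : y ≠ 0) :
    rho x y = -2 * gS (x, y⁻¹) / gD (x, y⁻¹) := by
  unfold rho; rw [sD_gD hy, sS_gS hy]; field_simp

theorem kap_g {K : Type*} [Field K] {x y : K} (hy : y ≠ 0) :
    kap x y = -4 * gS (x, y⁻¹) * gQ (x, y⁻¹) / gD (x, y⁻¹) ^ 3 := by
  unfold kap; rw [sD_gD hy, sS_gS hy, sQ_gQ hy]; field_simp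

/-- the limit statement for general normed fields -/
theorem lim_core {K : Type} [NormedField K] [CompleteSpace K] [NeZero (2 : K)]
    [DecidableEq K] (hnt : ∃ x : K, 1 < ‖x‖) {c : ℝ} (hc : 1 < c) (d : Kˣ) (Q₁ : E (d : K))
    (hQ₁ : Q₁ ≠ 0) (hf : ff (nx Q₁) ≠ 0) (h3 : 3 * nx Q₁ - 1 ≠ 0) (n : ℕ) :
    ∃ (d' : Kˣ) (Q₁' : E (d' : K)), ∃ m, ∀ Q' : E (d' : K), Q' - Q₁' ∈ nbh c (d' : K) m →
      ∀ η ∈ nbh c (d' : K) m, η ≠ 0 → ∃ P'' Q'' : E (d : K), SRel ⟨d', Q', η⟩ ⟨d, P'', Q''⟩ ∧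
        P'' - Q₁ ∈ nbh c (d : K) n ∧ Q'' ∈ nbh c (d : K) n := by
  have hd := d.ne_zero
  have h2 : (2 : K) ≠ 0 := two_ne_zero
  set x₁ := nx Q₁ with hx₁
  set ρ₀ : K := -(3 * x₁ - 1) / 2 with hρ₀
  have hρ : ρ₀ ≠ 0 := div_ne_zero (neg_ne_zero.2 h3) h2
  set x' : K := (x₁ + 1) / (3 * x₁ - 1) with hx'
  have hffx : ff x₁ = ρ₀ ^ 3 * ff x' := by
    have e : ρ₀ * x' = -(x₁ + 1) / 2 := by rw [hρ₀, hx']; field_simp
    calc ff x₁ = (-(x₁ + 1) / 2) ^ 3 - (-(3 * x₁ - 1) / 2) ^ 2 * (-(x₁ + 1) / 2) := by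
          unfold ff; field_simp; ring
      _ = ρ₀ ^ 3 * ff x' := by rw [← e, ← hρ₀]; unfold ff; ring
  have hfx' : ff x' ≠ 0 := by
    intro h0
    rw [h0, mul_zero] at hffx
    exact hf hffx
  set d' : Kˣ := d * Units.mk0 ρ₀ hρ with hd'
  have hd'v : (d' : K) = d * ρ₀ := by rw [hd', Units.val_mul, Units.val_mk0]
  have hd'0 := d'.ne_zero
  set s₁ : K := yc Q₁ / d with hs₁
  have hs₁2 : s₁ ^ 2 = d * ff x₁ := sq_ff_nx hd Q₁
  have hyQ₁ : yc Q₁ ≠ 0 := (yc_ne_iff hd Q₁).2 hf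
  have hs₁0 : s₁ ≠ 0 := div_ne_zero hyQ₁ hd
  obtain ⟨Q₁', hQ₁'0, hQ₁'x, hQ₁'y⟩ := exists_pt (d := (d' : K)) hd'0 (x := x') (s := s₁ / ρ₀)
    (by rw [div_pow, hs₁2, hffx, hd'v]; field_simp)
  refine ⟨d', Q₁', ?_⟩
  obtain ⟨ε, hε, Hε⟩ := near_of_coord (c := c) hd hQ₁ hyQ₁ n
  have hyQn : 0 < ‖yc Q₁‖ := norm_pos_iff.2 hyQ₁
  obtain ⟨δ, hδ, Hδ⟩ := sqrt_near_one hnt (ε := min 1 (ε / ‖yc Q₁‖))
    (lt_min one_pos (by positivity))
  -- continuity
  have cD : Continuous (gD : K × K → K) := by unfold gD; fun_prop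
  have cS : Continuous (gS : K × K → K) := by unfold gS; fun_prop
  have cQ : Continuous (gQ : K × K → K) := by unfold gQ; fun_prop
  have vD : gD (x', (0 : K)) = 4 / (3 * x₁ - 1) := by
    unfold gD; simp only [hx']; field_simp; ring
  have vS : gS (x', (0 : K)) = 1 := by unfold gS; simp
  have vQ : gQ (x', (0 : K)) = 2 := by unfold gQ; simp
  have h4 : (4 : K) ≠ 0 := four_ne'
  have hD0 : gD (x', (0 : K)) ≠ 0 := by rw [vD]; exact div_ne_zero h4 h3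
  have eD : ∀ᶠ q in 𝓝 (x', (0 : K)), gD q ≠ 0 := cD.continuousAt.eventually_ne hD0
  have eS : ∀ᶠ q in 𝓝 (x', (0 : K)), gS q ≠ 0 := cS.continuousAt.eventually_ne (by
    rw [vS]; exact one_ne_zero)
  have eQ : ∀ᶠ q in 𝓝 (x', (0 : K)), gQ q ≠ 0 := cQ.continuousAt.eventually_ne (by
    rw [vQ]; exact h2)
  have eF : ∀ᶠ q : K × K in 𝓝 (x', (0 : K)), ff q.1 ≠ 0 :=
    (continuous_ff.comp continuous_fst).continuousAt.eventually_ne hfx'
  have cr : ContinuousAt (fun q : K × K => -2 * gS q / gD q) (x', (0 : K)) :=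
    (continuous_const.mul cS).continuousAt.div cD.continuousAt hD0
  have vr : -2 * gS (x', (0 : K)) / gD (x', (0 : K)) = ρ₀ := by
    rw [vD, vS, hρ₀]; field_simp; norm_num
  have ck : ContinuousAt (fun q : K × K => -4 * gS q * gQ q / gD q ^ 3 * ff q.1 / (ρ₀ ^ 3 * ff x'))
      (x', (0 : K)) := by
    apply ContinuousAt.div_const
    apply ContinuousAt.mul
    · exact ((continuous_const.mul cS).mul cQ).continuousAt.div (cD.pow 3).continuousAt
        (pow_ne_zero _ hD0)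
    · exact (continuous_ff.comp continuous_fst).continuousAt
  have vk : -4 * gS (x', (0 : K)) * gQ (x', (0 : K)) / gD (x', (0 : K)) ^ 3 * ff x' /
      (ρ₀ ^ 3 * ff x') = 1 := by
    rw [vD, vS, vQ, hρ₀]; field_simp; norm_num
  have er : ∀ᶠ q in 𝓝 (x', (0 : K)), ‖ρ₀‖ / 2 < ‖-2 * gS q / gD q‖ := by
    apply continuousAt_const.eventually_lt cr.norm
    change ‖ρ₀‖ / 2 < ‖-2 * gS (x', (0 : K)) / gD (x', (0 : K))‖
    rw [vr]
    have : 0 < ‖ρ₀‖ := norm_pos_iff.2 hρ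
    linarith
  have ek : ∀ᶠ q : K × K in 𝓝 (x', (0 : K)),
      ‖-4 * gS q * gQ q / gD q ^ 3 * ff q.1 / (ρ₀ ^ 3 * ff x') - 1‖ < δ := by
    apply (ck.sub continuousAt_const).norm.eventually_lt continuousAt_const
    change ‖-4 * gS (x', (0 : K)) * gQ (x', (0 : K)) / gD (x', (0 : K)) ^ 3 * ff x' /
      (ρ₀ ^ 3 * ff x') - 1‖ < δ
    rw [vk, sub_self, norm_zero]
    exact hδ
  have cx : ContinuousAt (fun q : K × K => 1 + -2 * gS q / gD q * (q.1 - 1)) (x', (0 : K)) :=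
    continuousAt_const.add (cr.mul (continuous_fst.sub continuous_const).continuousAt)
  have vx : 1 + -2 * gS (x', (0 : K)) / gD (x', (0 : K)) * (x' - 1) = x₁ := by
    rw [vr, hρ₀, hx']; field_simp; ring
  have ex : ∀ᶠ q : K × K in 𝓝 (x', (0 : K)), ‖1 + -2 * gS q / gD q * (q.1 - 1) - x₁‖ < ε := by
    apply (cx.sub continuousAt_const).norm.eventually_lt continuousAt_const
    change ‖1 + -2 * gS (x', (0 : K)) / gD (x', (0 : K)) * (x' - 1) - x₁‖ < ε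
    rw [vx, sub_self, norm_zero]
    exact hε
  obtain ⟨δ₂, hδ₂, H⟩ := Metric.eventually_nhds_iff.1
    (eD.and (eS.and (eQ.and (eF.and (er.and (ek.and ex))))))
  -- closeness of `Q'`
  obtain ⟨m₀, Hm₀⟩ := coord_of_near hc hd'0 hQ₁'0 hδ₂
  obtain ⟨m₁, hm₁⟩ := pow_unbounded_of_one_lt
    (max (max 1 (1 / δ₂)) ((c ^ (2 * n + 1) + 1) * (2 / ‖ρ₀‖) + 1)) hc
  refine ⟨max m₀ m₁, ?_⟩
  intro Q' hQ' η hη hη0
  obtain ⟨hQ'0, hQ'x, -⟩ := Hm₀ Q' (nbh_anti hc.le _ (le_max_left _ _) hQ')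
  rw [hQ₁'x] at hQ'x
  have hη1 := ((mem_nbh_iff hd'0).1 hη).resolve_left hη0
  have hη2 : c ^ m₁ ≤ ‖nx η‖ := by
    refine le_trans ?_ hη1
    apply pow_le_pow_right₀ hc.le
    have := le_max_right m₀ m₁
    omega
  have hη3 := lt_of_lt_of_le hm₁ hη2
  set a := nx Q' with ha
  set y := nx η with hy
  have hy1 : 1 < ‖y‖ := lt_of_le_of_lt ((le_max_left _ _).trans (le_max_left _ _)) hη3
  have hy2 : 1 / δ₂ < ‖y‖ := lt_of_le_of_lt ((le_max_right _ _).trans (le_max_left _ _)) hη3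
  have hy3 : (c ^ (2 * n + 1) + 1) * (2 / ‖ρ₀‖) + 1 < ‖y‖ := lt_of_le_of_lt (le_max_right _ _) hη3
  have hy0 : y ≠ 0 := norm_pos_iff.1 (by linarith)
  obtain ⟨gD0, gS0, gQ0, gF0, gr, gk, gx⟩ := H (y := (a, y⁻¹)) (by
    rw [Prod.dist_eq, max_lt_iff, dist_eq_norm, dist_eq_norm, sub_zero, norm_inv]
    refine ⟨hQ'x, ?_⟩
    rw [one_div] at hy2
    exact inv_lt_of_inv_lt₀ hδ₂ hy2)
  have gF : ff a ≠ 0 := gF0
  rw [← rho_g hy0] at gr gx
  rw [← kap_g hy0] at gk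
  have hDD : sD a y ≠ 0 := by rw [sD_gD hy0]; exact mul_ne_zero hy0 gD0
  have hSS : sS a y ≠ 0 := by rw [sS_gS hy0]; exact mul_ne_zero hy0 gS0
  have hQQ : sQ a y ≠ 0 := by rw [sQ_gQ hy0]; exact mul_ne_zero (pow_ne_zero _ hy0) gQ0
  have hfy : ff y ≠ 0 := by
    intro h0
    have h1 : y * (y ^ 2 - 1) = 0 := by rw [← h0]; unfold ff; ring
    have h5 : y ^ 2 = 1 := sub_eq_zero.1 ((mul_eq_zero.1 h1).resolve_left hy0)
    have h6 := congrArg norm h5
    rw [norm_pow, norm_one] at h6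
    nlinarith
  obtain ⟨w, hw, hw1⟩ := Hδ _ gk
  have hw1' : ‖w - 1‖ < 1 := lt_of_lt_of_le hw1 (min_le_left _ _)
  have hw0 : w ≠ 0 := by
    rintro rfl
    simp at hw1'
  have hwε : ‖w - 1‖ * ‖yc Q₁‖ < ε := by
    have := lt_of_lt_of_le hw1 (min_le_right _ _)
    rwa [lt_div_iff₀ hyQn] at this
  -- the first point
  have hsq1 : (s₁ * w) ^ 2 = d * ff (sx a y) := by
    rw [mul_pow, hw, ff_sx hDD, hs₁2, hffx]
    field_simp
  obtain ⟨P'', hP''0, hP''x, hP''y⟩ := exists_pt hd hsq1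
  -- the second point
  have hs' := sq_ff_nx hd'0 Q'
  have hη' := sq_ff_nx hd'0 η
  rw [← ha] at hs'
  rw [← hy] at hη'
  have hyQ' : yc Q' ≠ 0 := (yc_ne_iff hd'0 Q').2 gF
  have hsq2 : (s₁ * w / (yc Q' / d') * (yc η / d')) ^ 2 = d * ff (sy a y) := by
    rw [ff_sy hDD, mul_pow, div_pow, hsq1, hs', hη', ff_sx hDD]
    field_simp
  obtain ⟨Q'', hQ''0, hQ''x, hQ''y⟩ := exists_pt hd hsq2
  have hP''Q : P'' - Q₁ ∈ nbh c (d : K) n := by
    apply Hε P'' hP''0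
    · rw [hP''x, ← hx₁]; exact gx
    · rw [hP''y]
      have : (d : K) * (s₁ * w) - yc Q₁ = (w - 1) * yc Q₁ := by
        rw [hs₁]; field_simp
      rw [this, norm_mul]
      exact hwε
  have hQ''n : Q'' ∈ nbh c (d : K) n := by
    rw [mem_nbh_iff hd]
    right
    rw [hQ''x]
    have hρn : 0 < ‖ρ₀‖ := norm_pos_iff.2 hρ
    have e1 : ‖rho a y * (y - 1)‖ - ‖(1 : K)‖ ≤ ‖sy a y‖ := by
      have := norm_sub_norm_le (rho a y * (y - 1)) (-1)
      rw [norm_neg, sub_neg_eq_add] at this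
      have e : sy a y = rho a y * (y - 1) + 1 := by unfold sy; ring
      rw [e]
      exact this
    rw [norm_one, norm_mul] at e1
    have e2 : ‖y‖ - 1 ≤ ‖y - 1‖ := by
      have := norm_sub_norm_le y 1
      rwa [norm_one] at this
    have e3 : ‖ρ₀‖ / 2 * (‖y‖ - 1) ≤ ‖rho a y‖ * ‖y - 1‖ := by
      apply mul_le_mul gr.le e2 (by linarith) (norm_nonneg _)
    have e4 : c ^ (2 * n + 1) + 1 ≤ ‖ρ₀‖ / 2 * (‖y‖ - 1) := by
      have e5 : (c ^ (2 * n + 1) + 1) * (2 / ‖ρ₀‖) ≤ ‖y‖ - 1 := by linarith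
      calc c ^ (2 * n + 1) + 1 = ‖ρ₀‖ / 2 * ((c ^ (2 * n + 1) + 1) * (2 / ‖ρ₀‖)) := by
            field_simp
        _ ≤ _ := by gcongr
    linarith
  rcases SRel.intro (d := d') (d' := d) (P := Q') (Q := η) (P' := P'') (Q' := Q'')
    gF hfy hP''0 hQ''0 hDD hSS hQQ hP''x hQ''x with hs | hs
  · exact ⟨P'', Q'', hs, hP''Q, hQ''n⟩
  · exact ⟨P'', -Q'', hs, hP''Q, neg_mem_nbh hQ''n⟩

/-- the neighbourhoods of zero are infinite -/
theorem nbh_infinite {K : Type} [NormedField K] [CompleteSpace K] [NeZero (2 : K)]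
    (hnt : ∃ x : K, 1 < ‖x‖) {c : ℝ} (hc : 1 < c) {d : K} (hd : d ≠ 0) (n : ℕ) :
    (nbh c d n).Infinite := by
  classical
  intro hfin
  obtain ⟨M, hM⟩ : ∃ M : ℝ, ∀ P ∈ nbh c d n, ‖nx P‖ ≤ M := by
    obtain ⟨M, hM⟩ := (hfin.image (fun P => ‖nx P‖)).bddAbove
    exact ⟨M, fun P hP => hM ⟨P, hP, rfl⟩⟩
  obtain ⟨N, hN⟩ := pow_unbounded_of_one_lt M hc
  obtain ⟨P, hP0, hP⟩ := exists_small hnt c hd (max n N)
  have h1 := hM P (nbh_anti hc.le _ (le_max_left _ _) hP)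
  have h2 := ((mem_nbh_iff hd).1 hP).resolve_left hP0
  have h3 : c ^ N ≤ c ^ (2 * max n N + 1) := by
    apply pow_le_pow_right₀ hc.le
    have := le_max_right n N
    omega
  linarith

/-- limits of the involution, given that `nb 0` is torsion-free -/
theorem LocHyp.lim_of {K : Type} [NormedField K] [Algebra GaussianInt K] [NeZero (2 : K)]
    [DecidableEq K] {π : GaussianInt} (h : LocHyp K π)
    (htf : ∀ (d : Kˣ) (P : E (d : K)), P ∈ nb π (d : K) 0 → ∀ α : GaussianInt, α ≠ 0 →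
      α • P = 0 → P = 0) (d : Kˣ) (Q : E (d : K)) (n : ℕ) :
    ∃ (d' : Kˣ) (Q' : E (d' : K)), (∀ g : GaussianInt, g ≠ 0 → g • Q' ≠ 0) ∧
      ∃ m, ∀ g : GaussianInt, g ≠ 0 → g • Q' ∈ nb π (d' : K) m →
        ∃ t', (FLD K π).S ⟨d', Q', g • Q'⟩ t' ∧ (FLD K π).close n t' ⟨d, Q, (0 : E (d : K))⟩ := by
  have hd := d.ne_zero
  have := h.complete
  have hnt : ∃ x : K, 1 < ‖x‖ := ⟨(algebraMap GaussianInt K π)⁻¹, by
    rw [norm_inv]; exact h.one_lt_inv⟩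
  have hc := h.one_lt_inv
  obtain ⟨Q₁, hQ₁, hQ₁0, hf, hB⟩ := exists_generic hd (infinite_near (nbh_infinite hnt hc hd n) Q)
    {1 / 3}
  have h3 : 3 * nx Q₁ - 1 ≠ 0 := by
    intro h0
    apply hB
    rw [Finset.mem_singleton]
    have h3' : (3 : K) ≠ 0 := by
      have := h.char0
      norm_num
    rw [eq_div_iff h3']
    linear_combination h0
  obtain ⟨d', Q₁', m, H⟩ := lim_core hnt hc d Q₁ hQ₁0 hf h3 n
  obtain ⟨Q', hQ'n, hQ'⟩ : ∃ Q' : E (d' : K), (∀ g : GaussianInt, g ≠ 0 → g • Q' ≠ 0) ∧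
      Q' - Q₁' ∈ nb π (d' : K) m := by
    by_cases htor : ∀ g : GaussianInt, g ≠ 0 → g • Q₁' ≠ 0
    · exact ⟨Q₁', htor, by rw [sub_self]; exact zero_mem_nbh _ _ _⟩
    · push Not at htor
      obtain ⟨g₀, hg₀, hg₀'⟩ := htor
      obtain ⟨ξ, hξ0, hξ⟩ := exists_small hnt (‖algebraMap GaussianInt K π‖)⁻¹ d'.ne_zero m
      refine ⟨Q₁' + ξ, ?_, by rwa [add_sub_cancel_left]⟩
      intro g hg h0
      apply hξ0
      apply htf d' ξ (nbh_anti hc.le _ (Nat.zero_le m) hξ) (g₀ * g) (mul_ne_zero hg₀ hg)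
      have h1 : (g₀ * g) • (Q₁' + ξ) = 0 := by rw [mul_smul, h0, smul_zero]
      have h2 : (g₀ * g) • Q₁' = 0 := by rw [mul_comm, mul_smul, hg₀', smul_zero]
      rwa [smul_add, h2, zero_add] at h1
  refine ⟨d', Q', hQ'n, m, ?_⟩
  intro g hg hgm
  obtain ⟨P'', Q'', hs, h1, h2⟩ := H Q' hQ' (g • Q') hgm (hQ'n g hg)
  refine ⟨⟨d, P'', Q''⟩, hs, P'', Q'', rfl, ?_, ?_⟩
  · change P'' - Q ∈ nb π (d : K) n
    have e : P'' - Q = (P'' - Q₁) + (Q₁ - Q) := by abel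
    rw [e]
    exact h.nb_add hd n h1 hQ₁
  · change Q'' - 0 ∈ nb π (d : K) n
    rw [sub_zero]
    exact h2

end GWA
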